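import Pool.Agent.W704.CBMain

/-!
MP_dd0577_an, Q1. For every compact subset `K` of a finite dimensional real normed space (in
particular of `ℝ^d` with the Euclidean norm) the Lipschitz-free space `F(K)` has the commuting
bounded approximation property.

Idea of the proof. Let `N` be a maximal `r`-separated subset of `K` and `(φ_v)` a smooth partition
of unity on `K` at scale `r`. By a form of Auerbach's lemma there are, for each `v` in `N`, at most
`d` pairs of points of `K ∩ B(v, 3r)` such that the difference quotients of a function `f` along
these pairs determine an affine function `A_v f` on `K ∩ B(v, 3r)` whose Lipschitz constant there is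
at most `C(d)` times that of `f`, and `A_v f = f` if `f` is affine. The operators
`f ↦ ∑ φ_v A_v f` are bounded by `C(d)`, depend on finitely many values of `f` only, have values in
the restrictions of `C^1` functions, and converge in norm to `f` as `r → 0` if `f` is the restriction
of a `C^1` function. Hence their preadjoints `T_n` on `F(K)` satisfy `‖T_m T_n - T_m‖ → 0` as
`n → ∞`, and they can be perturbed to commuting operators.
-/

set_option autoImplicit false

open Filter Topology
open Pool.Agent.H266R3.LF

namespace Pool.Agent.Results.MP_dd0577_an.CommutingBAP

/-- The commuting bounded approximation property of a separable Banach space: there are pairwise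
commuting, uniformly bounded finite rank operators which converge pointwise to the identity. -/
def HasCommutingBAP (X : Type) [NormedAddCommGroup X] [NormedSpace ℝ X] : Prop :=
  CompleteSpace X ∧ TopologicalSpace.SeparableSpace X ∧
    ∃ T : ℕ → X →L[ℝ] X,
      (∀ n, FiniteDimensional ℝ (LinearMap.range (T n : X →ₗ[ℝ] X))) ∧
      (∃ C : ℝ, ∀ n, ‖T n‖ ≤ C) ∧
      (∀ x, Tendsto (fun n => T n x) atTop (𝓝 x)) ∧
      ∀ m n, (T m).comp (T n) = (T n).comp (T m)

/-- **MP_dd0577_an, Q1.** `F(K)` has the commuting bounded approximation property for every compact
subset `K` of a finite dimensional normed space. -/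
theorem result (E : Type) [NormedAddCommGroup E] [NormedSpace ℝ E] [FiniteDimensional ℝ E]
    (K : Set E) (hK : IsCompact K) (o : K) : HasCommutingBAP (FreeSp K o) := by
  obtain ⟨T, h1, h2, h3, h4⟩ := Pool.Agent.W704.CB.main hK o
  refine ⟨inferInstance, Pool.Agent.W704.CB.separable_of h1 h3, T, h1, h2, h3, fun m n => ?_⟩
  rcases lt_trichotomy m n with h | h | h
  · exact (h4 m n h).2.trans (h4 m n h).1.symm
  · rw [h]
  · exact (h4 n m h).1.trans (h4 n m h).2.symm

/-- the case of the question -/
theorem euclidean (d : ℕ) (K : Set (EuclideanSpace ℝ (Fin d))) (hK : IsCompact K) (o : K) :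
    HasCommutingBAP (FreeSp K o) :=
  result _ K hK o

end Pool.Agent.Results.MP_dd0577_an.CommutingBAP
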